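import Pool.Agent.P.MP_9ec3f0_nt.Exc.Glue3
import Pool.Agent.P.MP_9ec3f0_nt.Exc.Count
import Pool.Agent.P.MP_9ec3f0_nt.Exc.Rat

namespace Pool.Agent.Results.MP_9ec3f0_nt.ExceptionalSet

open Pool.Agent.P.MP_9ec3f0_nt.Exc

/-- Counting the rational points of the projective line minus three points whose truncated
counting function outside `S` is at most `lam` times the height plus `C`. -/
theorem result (S : Finset ℕ) (lam C δ : ℝ) (h0 : 0 ≤ lam) (h1 : lam ≤ 1) (hδ : 0 < δ) :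
    ∃ C' : ℝ, ∀ B : ℝ, 1 ≤ B → ∀ T : Finset ℚ,
      (∀ q ∈ T, q ≠ 0 ∧ q ≠ 1 ∧ ((max q.num.natAbs q.den : ℕ) : ℝ) ≤ B ∧
        ∑ p ∈ (q.num * q.den * (q.num - q.den)).natAbs.primeFactors \ S, Real.log p
          ≤ lam * Real.log ((max q.num.natAbs q.den : ℕ) : ℝ) + C) →
      (T.card : ℝ) ≤ C' * B ^ ((15 * lam + 5) / 37 + δ) := by
  have h := abc_count (15 / 37) (5 / 37) (by norm_num) (by norm_num) box_bound lam h0 h1
  have e : (15 * lam + 5) / 37 = 15 / 37 * lam + 5 / 37 := by ring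
  rw [e]
  exact rat_count _ lam (by positivity) h0 h S C δ hδ

end Pool.Agent.Results.MP_9ec3f0_nt.ExceptionalSet
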