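import Pool.Agent.P.MP_9ec3f0_nt.ABC.Arith
import Pool.Agent.P.MP_9ec3f0_nt.ABC.Colouring
import Pool.Agent.P.MP_9ec3f0_nt.ABC.Numeric
import Pool.Agent.P.MP_9ec3f0_nt.ABC.Asymp

/-!
Infinitely many extremal abc triples, with the constant 6.83.
-/

open Finset Pool.Agent.P.MP_9ec3f0_nt.ABC

namespace Pool.Agent.Results.MP_9ec3f0_nt.ExtremalAbc

theorem sqrt_div_log_mono {u L : ℝ} (hu : Real.exp 2 ≤ u) (huL : u ≤ L) :
    Real.sqrt u / Real.log u ≤ Real.sqrt L / Real.log L := by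
  have h := Real.log_div_sqrt_antitoneOn (Set.mem_Ici.2 hu) (Set.mem_Ici.2 (hu.trans huL)) huL
  have h1 : (1 : ℝ) < Real.exp 2 := Real.one_lt_exp_iff.2 (by norm_num)
  have hlu : 0 < Real.log u := Real.log_pos (h1.trans_le hu)
  have hlL : 0 < Real.log L := Real.log_pos (h1.trans_le (hu.trans huL))
  have hsu : 0 < Real.sqrt u := Real.sqrt_pos.2 (by linarith)
  have hsL : 0 < Real.sqrt L := Real.sqrt_pos.2 (by linarith)
  simp only at h
  rw [div_le_div_iff₀ hsL hsu] at h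
  rw [div_le_div_iff₀ hlu hlL]
  linarith

theorem exp_two_le {c k : ℕ} (hk : 11 ≤ k) (hc : 2 ^ k ≤ c) : Real.exp 2 ≤ Real.log c := by
  have h1 : (2 : ℝ) ^ 11 ≤ c := by
    have : 2 ^ 11 ≤ c := (Nat.pow_le_pow_right (by norm_num) hk).trans hc
    exact_mod_cast this
  have h2 : Real.log ((2 : ℝ) ^ 11) ≤ Real.log c := Real.log_le_log (by norm_num) h1
  rw [Real.log_pow] at h2
  have h3 := Real.log_two_gt_d9
  have h4 : Real.exp 2 = Real.exp 1 * Real.exp 1 := by rw [← Real.exp_add]; norm_num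
  have h5 := Real.exp_one_lt_d9
  have h6 := Real.exp_pos 1
  push_cast at h2
  nlinarith

theorem exists_large (n : ℕ) : ∃ a b c : ℕ, n < c ∧ 0 < a ∧ 0 < b ∧ Nat.Coprime a b ∧ a + b = c ∧
    ((∏ p ∈ (a * b * c).primeFactors, p : ℕ) : ℝ) *
      Real.exp (683 / 100 * Real.sqrt (Real.log c) / Real.log (Real.log c)) < c := by
  obtain ⟨X, hD, hX⟩ := exists_data
  obtain ⟨ε, hε, hA⟩ := asymp (683 / 100) X.D (X.H - X.S) (by norm_num) hD hX
  obtain ⟨r0, hr⟩ := l1_colouring X hε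
  obtain ⟨y, k, L, m, s, hB1, hB2, hs, hk, hm, hfin⟩ := hA (max (max r0 11) n)
  have hr0 : r0 ≤ (oddPrimes y).card := ((le_max_left _ _).trans (le_max_left _ _)).trans hB1
  have h11 : 11 ≤ k := ((le_max_right _ _).trans (le_max_left _ _)).trans hB2
  have hn : n ≤ k := (le_max_right _ _).trans hB2
  have : NeZero (2 ^ k) := ⟨by positivity⟩
  have hcard : Fintype.card (oddPrimes y) = (oddPrimes y).card := Fintype.card_coe _
  obtain ⟨x, x', hne, hcls, hd⟩ := hr (oddPrimes y) (hcard ▸ hr0) (fun p => s p)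
    (fun p => Real.log (p : ℕ)) m (fun p => (hs p p.2).1)
    (fun p => Real.log_pos (by
      have := three_le_of_mem_oddPrimes p.2
      exact_mod_cast (by omega : 1 < (p : ℕ))))
    (fun p => (hs p p.2).2) (ZMod (2 ^ k))
    (fun x => ((∏ p : oddPrimes y, (p : ℕ) ^ x p : ℕ) : ZMod (2 ^ k))) (by
      rw [ZMod.card, hcard, Finset.prod_coe_sort (oddPrimes y) fun p => (s p : ℝ)]
      exact_mod_cast hk)
  rw [hcard] at hd
  obtain ⟨a, b, c, ha, hb, hco, habc, hkc, hlog, hrad⟩ :=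
    triple_of_collision y k (by omega) x x' hne hcls L (hd.trans hm)
  refine ⟨a, b, c, ?_, ha, hb, hco, habc, ?_⟩
  · exact lt_of_le_of_lt hn (lt_of_lt_of_le (Nat.lt_two_pow_self) hkc)
  · have hmono := sqrt_div_log_mono (exp_two_le h11 hkc) hlog
    have hexp : Real.exp (683 / 100 * Real.sqrt (Real.log c) / Real.log (Real.log c)) ≤
        Real.exp (683 / 100 * Real.sqrt L / Real.log L) := by
      apply Real.exp_le_exp.2
      rw [mul_div_assoc, mul_div_assoc]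
      linarith
    have hrad' : ((∏ p ∈ (a * b * c).primeFactors, p : ℕ) : ℝ) * 2 ^ k ≤
        2 * ((∏ p ∈ oddPrimes y, p : ℕ) : ℝ) * c := by exact_mod_cast hrad
    have hc0 : (0 : ℝ) < c := by exact_mod_cast (by omega : 0 < c)
    have h2k : (0 : ℝ) < 2 ^ k := by positivity
    have hR : (0 : ℝ) ≤ ((∏ p ∈ (a * b * c).primeFactors, p : ℕ) : ℝ) := Nat.cast_nonneg _
    have hE := Real.exp_pos (683 / 100 * Real.sqrt L / Real.log L)
    refine lt_of_le_of_lt (mul_le_mul_of_nonneg_left hexp hR) ?_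
    refine lt_of_mul_lt_mul_right ?_ h2k.le
    calc ((∏ p ∈ (a * b * c).primeFactors, p : ℕ) : ℝ) *
          Real.exp (683 / 100 * Real.sqrt L / Real.log L) * 2 ^ k
        = ((∏ p ∈ (a * b * c).primeFactors, p : ℕ) : ℝ) * 2 ^ k *
          Real.exp (683 / 100 * Real.sqrt L / Real.log L) := by ring
      _ ≤ 2 * ((∏ p ∈ oddPrimes y, p : ℕ) : ℝ) * c *
          Real.exp (683 / 100 * Real.sqrt L / Real.log L) :=
          mul_le_mul_of_nonneg_right hrad' hE.le
      _ = c * (2 * ((∏ p ∈ oddPrimes y, p : ℕ) : ℝ) *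
          Real.exp (683 / 100 * Real.sqrt L / Real.log L)) := by ring
      _ < c * 2 ^ k := mul_lt_mul_of_pos_left hfin hc0

theorem result :
    {x : ℕ × ℕ × ℕ | 0 < x.1 ∧ 0 < x.2.1 ∧ Nat.Coprime x.1 x.2.1 ∧ x.1 + x.2.1 = x.2.2 ∧
      ((∏ p ∈ (x.1 * x.2.1 * x.2.2).primeFactors, p : ℕ) : ℝ) *
        Real.exp (683 / 100 * Real.sqrt (Real.log x.2.2) / Real.log (Real.log x.2.2))
        < x.2.2}.Infinite := by
  refine Set.Infinite.of_image (fun x => x.2.2) (Set.infinite_of_forall_exists_gt fun n => ?_)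
  obtain ⟨a, b, c, hn, h⟩ := exists_large n
  exact ⟨c, ⟨(a, b, c), h, rfl⟩, hn⟩

end Pool.Agent.Results.MP_9ec3f0_nt.ExtremalAbc
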