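import Pool.Agent.P.MP_9ec3f0_nt.Smooth.Main

/-!
The primes up to `(n h) ^ (1 / 2 + δ)` contribute at most `C * √(rad (a b)) * h ^ (1 - δ)` to
`log |a ^ n - b ^ n|`, where `h = n * log |a|` is the height of the point `(a ^ n : b ^ n)` of the
projective line.  The radical is written as the product of the prime factors.
-/

namespace Pool.Agent.Results.MP_9ec3f0_nt.SmoothPart

theorem result : ∃ δ : ℝ, 0 < δ ∧ ∃ C : ℝ, ∀ (a b : ℤ) (n : ℕ) (h : ℝ),
    IsCoprime a b → b ≠ 0 → |b| < |a| → 0 < n → h = n * Real.log |(a : ℝ)| →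
    ∑ p ∈ (a ^ n - b ^ n).natAbs.primeFactors.filter
        (fun p : ℕ => (p : ℝ) ≤ (n * h) ^ (1 / 2 + δ)),
        (padicValInt p (a ^ n - b ^ n) : ℝ) * Real.log p ≤
      C * √((∏ l ∈ (a * b).natAbs.primeFactors, l : ℕ) : ℝ) * h ^ (1 - δ) :=
  Pool.Agent.P.MP_9ec3f0_nt.Smooth.smooth_part

end Pool.Agent.Results.MP_9ec3f0_nt.SmoothPart
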