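import Pool.Agent.P.MP_9ec3f0_nt.SY.Abc

/-!
An unconditional bound towards the abc conjecture with exponent smaller than one third:
there are `δ > 0` and `C` such that `log c ≤ C * rad (a b c) ^ (1 / 3 - δ)` for all coprime
positive integers with `a + b = c`.  The radical is written as the product of the prime factors.
-/

namespace Pool.Agent.Results.MP_9ec3f0_nt.StewartYu

theorem result : ∃ δ : ℝ, 0 < δ ∧ ∃ C : ℝ, ∀ a b c : ℕ, 0 < a → 0 < b → a + b = c →
    Nat.Coprime a b →
    Real.log c ≤ C * ((∏ p ∈ (a * b * c).primeFactors, p : ℕ) : ℝ) ^ (1 / 3 - δ) :=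
  Pool.Agent.P.MP_9ec3f0_nt.SY.abc_bound

end Pool.Agent.Results.MP_9ec3f0_nt.StewartYu
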